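import Mathlib

/-!
# MP_34bddf_lc, Q1: `MAX` is not the multiplicative ideal generated by `Γ`

Ultrafilters on the positive integers, with the extensions of `+` and `*`.  We exhibit an
ultrafilter divisible by every positive integer which lies outside of the smallest
multiplicative ideal that contains the closure `Γ` of the additive idempotents.
-/

namespace Pool.Agent.Results.MP_34bddf_lc.MaxNotGenerated

open Filter Topology Set

/-- The extension to ultrafilters of a binary operation `op` on the positive integers. -/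
def star (op : ℕ+ → ℕ+ → ℕ+) (F G : Ultrafilter ℕ+) : Ultrafilter ℕ+ :=
  F.bind fun n => G.map (op n)

/-- `A ∈ F ⋆ G` if and only if `{n | {m | n ⋆ m ∈ A} ∈ G} ∈ F`, as in the problem file. -/
theorem mem_star (op : ℕ+ → ℕ+ → ℕ+) (F G : Ultrafilter ℕ+) (A : Set ℕ+) :
    A ∈ star op F G ↔ {n | {m | op n m ∈ A} ∈ G} ∈ F := Iff.rfl

/-- The extended addition. -/
def add (F G : Ultrafilter ℕ+) : Ultrafilter ℕ+ := star (fun n m => n + m) F G

/-- The extended multiplication. -/
def mul (F G : Ultrafilter ℕ+) : Ultrafilter ℕ+ := star (fun n m => n * m) F G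

/-- The ultrafilters divisible by every positive integer. -/
def MAX : Set (Ultrafilter ℕ+) := {F | ∀ n : ℕ+, {m : ℕ+ | n ∣ m} ∈ F}

/-- `Γ`: the closure of the set of additive idempotents, in the Stone topology. -/
def Gam : Set (Ultrafilter ℕ+) := closure {F | add F F = F}

/-- A two-sided ideal of the semigroup of ultrafilters with the extended multiplication. -/
structure IsMulIdeal (I : Set (Ultrafilter ℕ+)) : Prop where
  nonempty : I.Nonempty
  left : ∀ F, ∀ E ∈ I, mul F E ∈ I
  right : ∀ E ∈ I, ∀ F, mul E F ∈ I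

/-- The multiplicative ideal generated by `Γ`: the intersection of all the ideals which
contain `Γ`. -/
def genIdeal : Set (Ultrafilter ℕ+) := ⋂₀ {I | IsMulIdeal I ∧ Gam ⊆ I}

/-- a set with a nontrivial Schur triple -/
def Schur (B : Set ℕ+) : Prop := ∃ a b : ℕ+, a ≠ b ∧ a ∈ B ∧ b ∈ B ∧ a + b ∈ B

theorem schur_of_idem {p : Ultrafilter ℕ+} (hp : add p p = p) {B : Set ℕ+} (hB : B ∈ p) :
    Schur B := by
  have h1 : {n | {m | n + m ∈ B} ∈ p} ∈ p := by
    have : B ∈ add p p := by rw [hp]; exact hB
    exact (mem_star _ _ _ _).mp this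
  obtain ⟨x, hx, hxB⟩ := p.nonempty_of_mem (inter_mem h1 hB)
  have h2 : {m | x + m ∈ B} ∩ B ∈ p := inter_mem hx hB
  have h3 : ({x} : Set ℕ+)ᶜ ∈ p := by
    rw [Ultrafilter.compl_mem_iff_notMem]
    intro hxp
    have h4 : ({x} : Set ℕ+) ∈ add p p := by rw [hp]; exact hxp
    have h5 : {n | {m | n + m ∈ ({x} : Set ℕ+)} ∈ p} ∈ p := (mem_star _ _ _ _).mp h4
    obtain ⟨y, hy, hyx⟩ := p.nonempty_of_mem (inter_mem h5 hxp)
    have hyx' : y = x := hyx
    subst hyx'
    obtain ⟨m, hm⟩ := p.nonempty_of_mem hy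
    have hm' : y + m = y := hm
    have := PNat.coe_inj.mpr hm'
    rw [PNat.add_coe] at this
    have := m.pos
    omega
  obtain ⟨y, ⟨hy1, hy2⟩, hy3⟩ := p.nonempty_of_mem (inter_mem h2 h3)
  exact ⟨x, y, fun h => hy3 (by rw [← h]; rfl), hxB, hy2, hy1⟩

/-- the ideal of the ultrafilters all of whose members have a Schur triple -/
def I₀ : Set (Ultrafilter ℕ+) := {E | ∀ B ∈ E, Schur B}

theorem gam_subset : Gam ⊆ I₀ := by
  intro E hE B hB
  have h1 : {u : Ultrafilter ℕ+ | B ∈ u} ∈ 𝓝 E := (ultrafilter_isOpen_basic B).mem_nhds hB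
  obtain ⟨p, hp1, hp2⟩ := mem_closure_iff_nhds.mp hE _ h1
  exact schur_of_idem hp2 hp1

theorem gam_nonempty : Gam.Nonempty := by
  let _ : AddSemigroup (Ultrafilter ℕ+) := Ultrafilter.addSemigroup
  obtain ⟨m, hm⟩ := exists_idempotent_of_compact_t2_of_continuous_add_left
    (M := Ultrafilter ℕ+) (fun V => Ultrafilter.continuous_add_left V)
  exact ⟨m, subset_closure hm⟩

theorem ideal₀ (h : Gam.Nonempty) : IsMulIdeal I₀ where
  nonempty := h.mono gam_subset
  left := by
    intro F E hE B hB
    obtain ⟨n, hn⟩ := F.nonempty_of_mem ((mem_star _ _ _ _).mp hB)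
    obtain ⟨a, b, hab, ha, hb, hc⟩ := hE _ hn
    refine ⟨n * a, n * b, fun h => hab (mul_left_cancel h), ha, hb, ?_⟩
    have : n * (a + b) ∈ B := hc
    rwa [mul_add] at this
  right := by
    intro E hE F B hB
    obtain ⟨a, b, hab, ha, hb, hc⟩ := hE _ ((mem_star _ _ _ _).mp hB)
    obtain ⟨m, ⟨h1, h2⟩, h3⟩ := F.nonempty_of_mem (inter_mem (inter_mem ha hb) hc)
    refine ⟨a * m, b * m, fun h => hab (mul_right_cancel h), h1, h2, ?_⟩
    have : (a + b) * m ∈ B := h3
    rwa [add_mul] at this

/-- the sequence `(k + 2)!` -/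
def fac (k : ℕ) : ℕ+ := ⟨(k + 2).factorial, Nat.factorial_pos _⟩

theorem fac_not_schur : ¬ Schur (range fac) := by
  have key : ∀ i j l : ℕ, i < j → fac i + fac j ≠ fac l := by
    intro i j l hij h
    have h1 : (i + 2).factorial + (j + 2).factorial = (l + 2).factorial := PNat.coe_inj.mpr h
    have h2 : (i + 2).factorial ≤ (j + 2).factorial := Nat.factorial_le (by omega)
    have h3 : 0 < (i + 2).factorial := Nat.factorial_pos _
    have h4 : (j + 2).factorial < (l + 2).factorial := by omega
    have h5 : j < l := by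
      by_contra hle
      have : (l + 2).factorial ≤ (j + 2).factorial := Nat.factorial_le (by omega)
      omega
    have h6 : (j + 3).factorial ≤ (l + 2).factorial := Nat.factorial_le (by omega)
    have h7 : (j + 3).factorial = (j + 3) * (j + 2).factorial := Nat.factorial_succ _
    nlinarith
  rintro ⟨a, b, hab, ⟨i, rfl⟩, ⟨j, rfl⟩, ⟨l, hl⟩⟩
  rcases lt_trichotomy i j with h | h | h
  · exact key i j l h hl.symm
  · exact hab (by rw [h])
  · exact key j i l h (by rw [add_comm]; exact hl.symm)

/-- **Q1 of MP_34bddf_lc, negated form.** Some ultrafilter divisible by every positive integer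
is not in the multiplicative ideal generated by `Γ`; in particular the two sets differ. -/
theorem result : (∃ F ∈ MAX, F ∉ genIdeal) ∧ MAX ≠ genIdeal := by
  have hmain : ∃ F ∈ MAX, F ∉ genIdeal := by
    refine ⟨(hyperfilter ℕ).map fac, ?_, ?_⟩
    · intro n
      rw [Ultrafilter.mem_map]
      have : {k : ℕ | ¬ (n ∣ fac k)}.Finite := by
        refine (Set.finite_lt_nat n).subset ?_
        intro k hk
        by_contra hlt
        have hlt' : (n : ℕ) ≤ k := by simpa using hlt
        apply hk
        rw [PNat.dvd_iff]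
        exact Nat.dvd_factorial n.pos (by omega)
      exact mem_hyperfilter_of_finite_compl (by simpa [Set.compl_def] using this)
    · intro h
      have h1 : (hyperfilter ℕ).map fac ∈ I₀ := h I₀ ⟨ideal₀ gam_nonempty, gam_subset⟩
      apply fac_not_schur
      apply h1
      rw [Ultrafilter.mem_map]
      have : fac ⁻¹' range fac = univ := by
        ext k
        simp
      rw [this]
      exact univ_mem
  refine ⟨hmain, ?_⟩
  intro h
  obtain ⟨F, hF, hF'⟩ := hmain
  exact hF' (h ▸ hF)

end Pool.Agent.Results.MP_34bddf_lc.MaxNotGenerated
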